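import Pool.Agent.H59E.SubCoc

/-!
The movable cone conjecture if a group of pseudo-automorphisms acts cocompactly on the
projectivisation of the interior of a cone of pseudo-effective classes.
-/

set_option autoImplicit false

open FF Pool.Agent.W602.GT Pool.Agent.Y172 Pool.Agent.R887 Pool.Agent.N110 Pool.Agent.N110.CC
  Pool.Agent.H59E

/-- Let `X` be a normal projective variety, with generic point `y`, and let the vectors `c P` be the
classes of the prime divisors in `N¹(X) = ℤ ^ ρ`. Let `𝒮` be a group of pseudo-automorphisms of `X`,
given by the automorphisms `ψ = f^*` of the function field (if `X` is smooth and `K_X ≡ 0` then every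
birational self-map is one, and `𝒮` may be `Bir(X)`). Let `Λ` be the group generated by `r + 1 ≥ 1`
linearly independent classes `s j` in `N¹(X)`, such that the pull backs by the elements of `𝒮` map `Λ`
into itself, for instance `Λ = N¹(X)`. Suppose that `Λ ⊗ ℝ` contains a class, with coordinates `t₀`,
which is big (in the interior of the effective cone) and in the closed movable cone, for instance an
ample class. Identify `Λ ⊗ ℝ` with `ℝ ^ (r + 1)`.

Suppose that some subgroup `𝒮₀` of `𝒮` acts cocompactly on the projectivisation of the interior of
some closed convex cone of pseudo-effective classes in `Λ ⊗ ℝ` (`CocompactOn`), for instance of the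
intersection of `Λ ⊗ ℝ` with the closed effective cone, with the closed movable cone, or with the nef
cone (if `𝒮₀` consists of automorphisms).

Then (1) all pseudo-effective classes in `Λ ⊗ ℝ` are in the closed movable cone; (2) all effective
classes in `Λ ⊗ ℝ`, except zero, are big; (3) the action of `𝒮` on the cone
`Mov(X) ∩ Eff(X) ∩ (Λ ⊗ ℝ)`, `Mov(X)` being the closed movable cone, has a rational polyhedral
fundamental domain.

The proof: by a compactness argument every element of a discrete group which moves a point close to
the boundary of the cone into the compact set shrinks it. So effective integral classes are in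
the interior of the cone, which is therefore the closed effective cone; and the extremal rays of the
cone are limits of the orbits of all interior points, so that it is contained in the movable cone. -/
theorem Pool.Agent.Results.MP_e39d36_ag.CocompactMovable.result
    {K : Type} [Field K] [Algebra ℂ K] {N r ρ : ℕ} {y : Fin (N + 1) → K} (hy : NormalModel y)
    {c : Place ℂ K → Fin ρ → ℤ} (hc : PicardBasis y c)
    {𝒮₀ 𝒮 : Subgroup (K ≃ₐ[ℂ] K)} (h₀ : 𝒮₀ ≤ 𝒮) (h𝒮 : ∀ ψ ∈ 𝒮, PseudoAut ψ y)
    {s : Fin (r + 1) → Fin ρ → ℤ} (hli : LinearIndependent ℝ (fun j i => (s j i : ℝ)))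
    (hst : ∀ ψ ∈ 𝒮, PreservesSpan y c s ψ) {t₀ : Fin (r + 1) → ℝ}
    (ht₀ : comb s t₀ ∈ interior (effCone y c)) (ht₀' : comb s t₀ ∈ movCone y c)
    (hcoc : CocompactOn y c s 𝒮₀) :
    (∀ t, comb s t ∈ closure (effCone y c) → comb s t ∈ movCone y c) ∧
    (∀ t, comb s t ∈ effCone y c → t ≠ 0 → comb s t ∈ interior (effCone y c)) ∧
    HasFundDomain {T | ∃ ψ ∈ 𝒮, IsPullBackOn y c s ψ T}
      {t | comb s t ∈ movCone y c ∩ effCone y c} :=
  sub_movCoc hy hc h₀ h𝒮 hli hst ht₀ ht₀' hcoc
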