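import Pool.Agent.H73.MR.Res

/-!
The movable cone conjecture if the group of birational automorphisms acts on `N¹(X)` through a group
which contains a free abelian group of rank `ρ(X) - 1`.
-/

set_option autoImplicit false

open FF Pool.Agent.W602.GT Pool.Agent.Y172 Pool.Agent.R887 Pool.Agent.N110 Pool.Agent.N110.CC

/-- Let `X` be a normal projective variety of dimension `n ≥ 1`, with generic point `y`, and let the
vectors `c P` be the classes of the prime divisors in `N¹(X) = ℤ ^ ρ`. Let `𝒮` be a group of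
pseudo-automorphisms of `X`, given by the automorphisms `ψ = f^*` of the function field (if `X` is
smooth and `K_X ≡ 0` then every birational self-map is one, and `𝒮` may be `Bir(X)`). Let `Λ` be the
group generated by `r + 1 ≥ 2` linearly independent classes `s j` in `N¹(X)`, such that the pull backs
by the elements of `𝒮` map `Λ` into itself. Suppose that `Λ ⊗ ℝ` contains a class, with coordinates
`t₀`, which is big (in the interior of the effective cone) and in the closed movable cone, for instance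
an ample class. Identify `Λ ⊗ ℝ` with `ℝ ^ (r + 1)`. Suppose that the image of `𝒮` in `GL(Λ ⊗ ℝ)`
contains a free abelian group of rank `r`: there are linear maps `G v`, `v ∈ ℤ ^ r`, with
`G (u + v) = G u * G v`, `G v ≠ 1` for `v ≠ 0`, which are pull backs by elements of `𝒮`. There is no
condition on the entropy of these maps. For example `Λ = N¹(X)` and `r = ρ - 1`: then the assumption is
that the image of `𝒮` in `GL(N¹(X))` contains a free abelian group of rank `ρ - 1`.

Then all effective classes in `Λ ⊗ ℝ` are in the closed movable cone, and they are zero or big; the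
closed movable cone intersects `Λ ⊗ ℝ` in a simplicial cone (the classes with nonnegative coordinates
in some basis `b`); and the action of `𝒮` on the cone `Mov(X) ∩ Eff(X) ∩ (Λ ⊗ ℝ)`, `Mov(X)` being the
closed movable cone, has a rational polyhedral fundamental domain. -/
theorem Pool.Agent.Results.MP_e39d36_ag.FaithfulMaximalRank.result
    {K : Type} [Field K] [Algebra ℂ K] {N n r ρ : ℕ} {y : Fin (N + 1) → K} (hy : NormalModel y)
    (hn : Algebra.trdeg ℂ K = n) (hn0 : 0 < n) (hr : 0 < r)
    {c : Place ℂ K → Fin ρ → ℤ} (hc : PicardBasis y c)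
    {𝒮 : Subgroup (K ≃ₐ[ℂ] K)} (h𝒮 : ∀ ψ ∈ 𝒮, PseudoAut ψ y)
    {s : Fin (r + 1) → Fin ρ → ℤ} (hli : LinearIndependent ℝ (fun j i => (s j i : ℝ)))
    (hst : ∀ ψ ∈ 𝒮, PreservesSpan y c s ψ) {t₀ : Fin (r + 1) → ℝ}
    (ht₀ : comb s t₀ ∈ interior (effCone y c)) (ht₀' : comb s t₀ ∈ movCone y c)
    {G : (Fin r → ℤ) → ((Fin (r + 1) → ℝ) ≃ₗ[ℝ] (Fin (r + 1) → ℝ))}
    (hG : ∀ u v, G (u + v) = G u * G v) (hG1 : ∀ v, v ≠ 0 → G v ≠ 1)
    (hG𝒮 : ∀ v, ∃ ψ ∈ 𝒮, IsPullBackOn y c s ψ (G v)) :
    (∀ t, comb s t ∈ effCone y c → comb s t ∈ movCone y c ∧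
      (t ≠ 0 → comb s t ∈ interior (effCone y c))) ∧
    (∃ b : Module.Basis (Fin (r + 1)) ℝ (Fin (r + 1) → ℝ), ∀ t, comb s t ∈ movCone y c ↔
      ∀ i, 0 ≤ b.repr t i) ∧
    HasFundDomain {T | ∃ ψ ∈ 𝒮, IsPullBackOn y c s ψ T}
      {t | comb s t ∈ movCone y c ∩ effCone y c} :=
  Pool.Agent.H73.MR.sub_movF hy hn hn0 hr hc h𝒮 hG hG1 hG𝒮 hli hst ht₀ ht₀'
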