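import Pool.Agent.X324.CF.Plus2

set_option autoImplicit false

/-!
# The movable cone conjecture for quotients of products of abelian varieties and Mori dream spaces

`A = V / Λ` is an abelian variety and `F` is a Mori dream space (projective, `ℚ`-factorial, with free
class group), given by its Cox ring `R = ⨁ 𝒜 β`. Let `X = (A × F) / G`, where a finite group `G` acts
diagonally; the action may have fixed points and fixed divisors, and `G` may permute the divisors of
`F` and the chambers of its movable cone. For instance, `X` can be a smooth projective variety with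
`K_X ≡ 0` whose finite étale cover in the decomposition theorem of Beauville and Bogomolov is
`A × F`, where `F` is a simply connected variety with `K_F ~ 0` (of any dimension, or a product of
such varieties) which is a Mori dream space, i.e. whose movable cone is rational polyhedral with
finitely many chambers; the variety `A` is arbitrary, so that `Bir(X)` is infinite in general.

Let `X → Z` be a fibration given by a linear map `π : V → W`, where `Z = W / Γ'` is a quotient of an
abelian variety (for the conjecture in its absolute form `W = 0`), and let `Δ` be an effective divisor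
on `X` with real coefficients such that `K_X + Δ` is numerically trivial over `Z` (for the conjecture
`Δ = 0`). (Only the curves of `X` which come from curves `C × {point}` in `A × F` are needed for this
hypothesis.) The theorem says that there is a rational polyhedral fundamental domain for the action of
the group of pseudo-automorphisms of `X/Z` which preserve `Δ` (this is `Bir(X)` if `X` is smooth, `Z` a
point and `Δ = 0`) on the cone `Mov^e(X/Z)` of the effective classes in the closed movable cone. More
generally the group may be replaced by any group of linear automorphisms of `N^1(X/Z)` which preserves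
the integral classes and `Mov^e(X/Z)` and contains the pullbacks by the automorphisms `(f, id)`.

`Cl`, `IsMoriDream`, `Grp`, `base`, `IsQuotient`, `Sheaf`, `EffDiv`, `EffDiv.Fixed`, `NumTrivial`,
`Normalizes`, `N1`, `integral`, `effective`, `movable`, `movCone`, `effCone` and `IsPullback` are
defined in `Pool.Agent.X324.CF.Defs`; `IsTorusQuotient` in `Pool.Agent.W594.SYZ.Defs2`;
`IsPositiveForm` in `Pool.Agent.W594.SYZ.TQDefs`; `IsFibration` in `Pool.Agent.TH735.AQ.Defs`;
`AffGrp`, `LinGrp`, `Preserves` and `IsFundDomain` in `Pool.Agent.Y167.Stm`.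
-/

namespace Pool.Agent.Results.MP_e39d36_ag.MoriDreamFactors

open Pool.Agent.W594.SYZ2 Pool.Agent.TH735.AQ Pool.Agent.X324.CF
open Pool.Agent.Y167 (AffGrp cone)
open Pool.Agent.Y167.CC (LinGrp Preserves IsFundDomain)

/-- The effective movable cone `Mov^e(X/Z)`: the effective classes in the closed movable cone. -/
def movEff {V E R : Type*} [NormedAddCommGroup V] [NormedSpace ℂ V] [NormedAddCommGroup E]
    [NormedSpace ℂ E] [CommRing R] [Algebra ℂ R] {ρ : ℕ} (𝒜 : Cl ρ → Submodule ℂ R)
    (Γ : Grp V R) (j : E →ₗ[ℂ] V) : Set (N1 𝒜 Γ j) := movCone 𝒜 Γ j ∩ effCone 𝒜 Γ j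

/-- The automorphism of `X` given by the affine transformation `f` of `V` and the identity of `F` is
an automorphism over `Z = W / Γ'`. -/
def Over {V W : Type*} [NormedAddCommGroup V] [NormedSpace ℂ V] [NormedAddCommGroup W]
    [NormedSpace ℂ W] (Γ' : AffGrp W) (π : V →ₗ[ℂ] W) (f : V ≃ᵃ[ℂ] V) : Prop :=
  ∃ δ ∈ Γ', ∀ v, π (f v) = δ (π v)

/-- `𝒢` is a group of linear automorphisms of `N^1(X/Z)` which preserves the integral classes and the
effective movable cone, and which contains the pullbacks by all automorphisms of `X` over `Z` of the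
form `(f, id)` which map `Δ` to itself. The image of the group of pseudo-automorphisms of `X/Z` which
preserve `Δ` has these properties; if `X` is smooth, `K_X ≡ 0`, `Δ = 0` and `Z` is a point then this
group is `Bir(X)`. -/
structure IsBirGroup {V W E R : Type*} [NormedAddCommGroup V] [NormedSpace ℂ V]
    [NormedAddCommGroup W] [NormedSpace ℂ W] [NormedAddCommGroup E] [NormedSpace ℂ E]
    [CommRing R] [Algebra ℂ R] {ρ : ℕ} {𝒜 : Cl ρ → Submodule ℂ R}
    {Γ : Grp V R} (Γ' : AffGrp W) (π : V →ₗ[ℂ] W) {j : E →ₗ[ℂ] V} {ι : Type*} [Fintype ι]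
    (Δ : EffDiv 𝒜 Γ ι) (𝒢 : LinGrp (N1 𝒜 Γ j)) : Prop where
  int : Preserves 𝒢 (integral 𝒜 Γ j)
  mov_eff : Preserves 𝒢 (movEff 𝒜 Γ j)
  aff : ∀ f : V ≃ᵃ[ℂ] V, Normalizes Γ f → Over Γ' π f → Δ.Fixed f →
    ∀ g, IsPullback f g → g ∈ 𝒢

/-- Let `F` be a Mori dream space with Cox ring `R` (homogeneous generators `x i` of degree `w i`) and
ample class `u`. Let `X = (V × F) / Γ` be a projective quotient of `A × F`, `X → Z = W / Γ'` a
fibration and `Δ` an effective divisor with real coefficients on `X` such that `K_X + Δ` is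
numerically trivial over `Z`. Here `E` is the kernel of `π`, embedded by `j`. Then there is a rational
polyhedral cone, spanned by finitely many integral classes in the effective movable cone of `X/Z`,
which is a fundamental domain for the action of `𝒢` on this cone. -/
theorem result {V W E R : Type*} [NormedAddCommGroup V] [NormedSpace ℂ V] [FiniteDimensional ℂ V]
    [NormedAddCommGroup W] [NormedSpace ℂ W] [FiniteDimensional ℂ W]
    [NormedAddCommGroup E] [NormedSpace ℂ E] [FiniteDimensional ℂ E]
    [CommRing R] [IsDomain R] [Algebra ℂ R] {ρ n : ℕ}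
    (𝒜 : Cl ρ → Submodule ℂ R) [GradedAlgebra 𝒜] (x : Fin n → R) (w : Fin n → Cl ρ) (u : Cl ρ)
    (hF : IsMoriDream 𝒜 x w u) (Γ : Grp V R) (hX : IsQuotient 𝒜 u Γ)
    (hproj : ∃ (L : Sheaf 𝒜 Γ) (H : V → V → ℂ), L.IsChern H ∧ IsPositiveForm H)
    (Γ' : AffGrp W) (π : V →ₗ[ℂ] W) (hπ : IsFibration (base Γ) Γ' π)
    (j : E →ₗ[ℂ] V) (hj : Function.Injective j) (hjr : LinearMap.range j = LinearMap.ker π)
    {ι : Type*} [Fintype ι] (Δ : EffDiv 𝒜 Γ ι) (hΔ : NumTrivial Δ j)
    (𝒢 : LinGrp (N1 𝒜 Γ j)) (h𝒢 : IsBirGroup Γ' π Δ 𝒢) :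
    ∃ S : Finset (N1 𝒜 Γ j), ↑S ⊆ integral 𝒜 Γ j ∧ cone S ⊆ movEff 𝒜 Γ j ∧
      IsFundDomain 𝒢 (movEff 𝒜 Γ j) (cone S) := by
  obtain ⟨H₀, Rl⟩ := rel_emb hX hproj hπ hj hjr
  exact core hF.base hX (fam_mov hF) Rl (good_movable hF hX) Δ hΔ 𝒢 h𝒢.int h𝒢.mov_eff
    (fun f hf hf2 hf3 g hg => h𝒢.aff f hf ⟨1, Γ'.one_mem, fun v => by
      obtain ⟨e, he⟩ := hf2 v
      have h5 : π (j e) = 0 := by
        have h6 : j e ∈ LinearMap.ker π := hjr ▸ LinearMap.mem_range_self j e
        exact h6
      rw [he, map_add, h5, add_zero]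
      rfl⟩ hf3 g hg)

end Pool.Agent.Results.MP_e39d36_ag.MoriDreamFactors
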